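import Mathlib
import Pool.Agent.W635.GPForce
import Pool.Agent.W635.GPZfc

/-!
# MP_e258b5_gt: it is consistent with ZFC that some set of reals has the `γ_p`-property for every
nonprincipal ultrafilter `p` but not the `γ`-property

1. Over an arbitrary ground model a notion of forcing (with the countable chain condition)
   preserves all cardinals and adds a sequence of `ℵ₁` reals as in `GoodFamily`.
2. In ZFC: from such a sequence one obtains an infinite set of reals which has the `γ_p`-property
   for every nonprincipal ultrafilter `p` and does not have the `γ`-property.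

The forcing language is the one of `Pool.Agent.Helper669.Forcing`: a sentence is the set of the
conditions which force it (`fnot`, `fand`, `fall` are primitive). `FamilyExistsN P W J` is the
translation of `there is x : W → ℕ → Bool with GoodFamily W J x`.
-/

set_option autoImplicit false

namespace Pool.Agent.Results.MP_e258b5_gt.ForcedCounterexample

open Cardinal Pool.Agent.Helper669.Forcing Pool.Agent.W684.FM Pool.Agent.W635.GP
  Pool.Agent.Helper185.Del

/-- (1) There is a notion of forcing all of whose conditions force that all cardinals (in
particular `ω₁`) are preserved, and that there is a sequence of reals, indexed by `ω₁`, as in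
`GoodFamily`, with `J` the set of the ordinals below `ω₂`. (2) If there is such a sequence
(for any index sets `W` and `J`), then there is an infinite set `X` of reals which has the
`γ_p`-property for every nonprincipal ultrafilter `p` on `ℕ` (even with injective enumerations)
and which does not have the `γ`-property. -/
theorem result :
    (∃ (P : Type) (_ : Preorder P), Nonempty P ∧ ∀ p : P,
      p ∈ CardinalsPreserved.{0, 0} P ∧ p ∈ OmegaOnePreserved P ∧
        p ∈ FamilyExistsN P Om1 (aleph 2).ord.ToType) ∧
    (∀ (W J : Type) (x : W → ℕ → Bool), GoodFamily W J x →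
      ∃ X : Set ℝ, X.Infinite ∧ (∀ p : Ultrafilter ℕ, Nonprincipal p → GammaP p X) ∧
        (∀ p : Ultrafilter ℕ, Nonprincipal p → GammaPInj p X) ∧ ¬ GammaProperty X) := by
  refine ⟨⟨Pool.Agent.W635.GP.Cond Om1 (aleph 2).ord.ToType, inferInstance, inferInstance, fun p =>
    ⟨Pool.Agent.W635.GP.pccc.cardinalsPreserved p,
      Pool.Agent.W635.GP.pccc.omegaOnePreserved p, forced_exists ?_ ?_ p⟩⟩,
    fun W J x h => ?_⟩
  · intro hc
    have h1 : #Om1 ≤ ℵ₀ := mk_le_aleph0_iff.2 hc
    rw [mk_ord_toType] at h1
    exact absurd h1 (not_le.2 aleph0_lt_aleph_one)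
  · rw [mk_ord_toType, mk_ord_toType, mul_eq_left (aleph0_le_aleph 1) (aleph0_le_aleph 1)
      aleph0_ne_zero]
    exact aleph_lt_aleph.2 (by norm_num)
  · obtain ⟨X, h1, h2, h3⟩ := exists_set h
    exact ⟨X, h1, fun p hp => (h2 p hp).gammaP, h2, h3⟩

end Pool.Agent.Results.MP_e258b5_gt.ForcedCounterexample
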